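import Mathlib

/-!
# The closed span of few vectors has a small dense set
-/

set_option autoImplicit false

open Cardinal Set

namespace Pool.Agent.R295.SC

/-- the closed linear span of at most `κ` vectors has a dense subset of cardinality at most `κ` -/
lemma exists_dense_span {E : Type} [NormedAddCommGroup E] [NormedSpace ℝ E] (S : Set E)
    {κ : Cardinal} (hκ : ℵ₀ ≤ κ) (hS : #S ≤ κ) :
    ∃ D : Set (Submodule.span ℝ S).topologicalClosure, Dense D ∧ #D ≤ κ := by
  classical
  let Φ : (S →₀ ℚ) →+ E := Finsupp.liftAddHom (fun s =>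
    { toFun := fun q : ℚ => (q : ℝ) • (s : E)
      map_zero' := by simp
      map_add' := fun a b => by simp [add_smul] })
  have hΦs : ∀ (s : S) (q : ℚ), Φ (Finsupp.single s q) = (q : ℝ) • (s : E) := by
    intro s q
    simp [Φ]
  set D0 : Set E := Set.range Φ with hD0
  have hadd : ∀ x ∈ D0, ∀ y ∈ D0, x + y ∈ D0 := by
    rintro _ ⟨f, rfl⟩ _ ⟨g, rfl⟩
    exact ⟨f + g, map_add _ _ _⟩
  have hq : ∀ q : ℚ, ∀ x ∈ D0, (q : ℝ) • x ∈ D0 := by
    rintro q _ ⟨f, rfl⟩
    refine ⟨q • f, ?_⟩
    induction f using Finsupp.induction_linear with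
    | zero => simp
    | add f g hf hg => rw [smul_add, map_add, map_add, hf, hg, smul_add]
    | single s a => rw [Finsupp.smul_single, hΦs, hΦs]; simp [mul_smul]
  have hq' : ∀ q : ℚ, ∀ x ∈ closure D0, (q : ℝ) • x ∈ closure D0 := fun q x hx =>
    map_mem_closure (continuous_const_smul _) hx (hq q)
  have hr : ∀ c : ℝ, ∀ x ∈ closure D0, c • x ∈ closure D0 := by
    intro c x hx
    have hcl : IsClosed {c : ℝ | c • x ∈ closure D0} :=
      isClosed_closure.preimage (continuous_id.smul continuous_const)
    have hd : Dense (Set.range ((↑) : ℚ → ℝ)) := Rat.denseRange_cast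
    have hsub : Set.range ((↑) : ℚ → ℝ) ⊆ {c : ℝ | c • x ∈ closure D0} := by
      rintro _ ⟨q, rfl⟩
      exact hq' q x hx
    exact (hcl.closure_subset_iff.mpr hsub) (hd c)
  have hadd' : ∀ x ∈ closure D0, ∀ y ∈ closure D0, x + y ∈ closure D0 := fun x hx y hy =>
    map_mem_closure₂ continuous_add hx hy hadd
  let V : Submodule ℝ E :=
    { carrier := closure D0
      add_mem' := fun {x y} hx hy => hadd' x hx y hy
      zero_mem' := subset_closure ⟨0, map_zero _⟩
      smul_mem' := fun c x hx => hr c x hx }
  have hSV : Submodule.span ℝ S ≤ V := by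
    rw [Submodule.span_le]
    intro s hs
    apply subset_closure
    exact ⟨Finsupp.single ⟨s, hs⟩ 1, by rw [hΦs]; simp⟩
  have hcl : ((Submodule.span ℝ S).topologicalClosure : Set E) ⊆ closure D0 := by
    rw [Submodule.topologicalClosure_coe]
    exact closure_minimal hSV isClosed_closure
  have hD0S : D0 ⊆ (Submodule.span ℝ S).topologicalClosure := by
    rintro _ ⟨f, rfl⟩
    apply Submodule.le_topologicalClosure
    induction f using Finsupp.induction_linear with
    | zero => simp
    | add f g hf hg => rw [map_add]; exact Submodule.add_mem _ hf hg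
    | single s a => rw [hΦs]; exact Submodule.smul_mem _ _ (Submodule.subset_span s.2)
  refine ⟨Subtype.val ⁻¹' D0, ?_, ?_⟩
  · intro x
    rw [closure_subtype]
    have h1 : Subtype.val '' (Subtype.val ⁻¹' D0 :
        Set (Submodule.span ℝ S).topologicalClosure) = D0 := by
      apply Set.image_preimage_eq_of_subset
      intro y hy
      exact ⟨⟨y, hD0S hy⟩, rfl⟩
    rw [h1]
    exact hcl x.2
  · refine (Cardinal.mk_preimage_of_injective _ _ Subtype.val_injective).trans ?_
    refine Cardinal.mk_range_le.trans ?_
    rcases S.eq_empty_or_nonempty with h | h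
    · subst h
      have : Subsingleton ((∅ : Set E) →₀ ℚ) := by
        constructor
        intro f g
        ext x
        exact x.2.elim
      exact (Cardinal.le_one_iff_subsingleton.mpr this).trans
        (Cardinal.one_lt_aleph0.le.trans hκ)
    · have : Nonempty S := h.to_subtype
      rw [Cardinal.mk_finsupp_of_infinite']
      exact max_le hS (by simpa using hκ)

end Pool.Agent.R295.SC
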