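import Pool.Agent.R295.SC.Tree

/-!
# The tree space fails property (SC) for two-point sets
-/

set_option autoImplicit false

open Cardinal Set MeasureTheory
open scoped ENNReal

namespace Pool.Agent.R295.SC

variable (B : Set (W → Bool))

/-- the signed vectors along a branch -/
noncomputable def z (σ : B) (t : W) : TX B := sgn (σ.1 t) • v B t σ

/-- the values of a signed vector: `1` before the branches split, `-1` where they split, and
`0` after -/
lemma z_before (σ τ : B) (t : W) (h : ∀ r ≤ t, τ.1 r = σ.1 r) : ev B τ (z B σ t) = 1 := by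
  unfold z
  rw [map_smul, ev_v]
  unfold uFun
  have hA : Agree t σ.1 τ.1 := fun r hr => h r hr.le
  rw [if_pos hA, h t le_rfl, smul_eq_mul]
  cases σ.1 t <;> simp [sgn]

lemma z_after (σ τ : B) (t r : W) (hr : r < t) (h : τ.1 r ≠ σ.1 r) : ev B τ (z B σ t) = 0 := by
  unfold z
  rw [map_smul, ev_v]
  unfold uFun
  rw [if_neg (fun h2 => h (h2 r hr)), smul_zero]

lemma abs_z_le (σ τ : B) (t : W) : |ev B τ (z B σ t)| ≤ 1 := by
  unfold z
  rw [map_smul, ev_v, smul_eq_mul, abs_mul, abs_sgn, one_mul]
  exact abs_uFun_le B t σ.1 τ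

/-- for `s < t` the two values differ only if the branches split in `[s, t]` -/
lemma z_sub (σ τ : B) {s t : W} (hst : s < t) (h : ev B τ (z B σ t - z B σ s) ≠ 0) :
    ∃ r, s ≤ r ∧ r ≤ t ∧ τ.1 r ≠ σ.1 r ∧ ∀ r' < r, τ.1 r' = σ.1 r' := by
  classical
  by_cases hne : ∃ r, τ.1 r ≠ σ.1 r
  · obtain ⟨r, hr, hmin⟩ := WellFounded.has_min (wellFounded_lt (α := W)) {r | τ.1 r ≠ σ.1 r} hne
    have hmin' : ∀ r' < r, τ.1 r' = σ.1 r' := fun r' h' => by
      by_contra h2
      exact hmin r' h2 h'
    refine ⟨r, ?_, ?_, hr, hmin'⟩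
    · by_contra hlt
      rw [not_le] at hlt
      apply h
      rw [map_sub, z_after B σ τ t r (hlt.trans hst) hr, z_after B σ τ s r hlt hr, sub_zero]
    · by_contra hlt
      rw [not_le] at hlt
      apply h
      rw [map_sub, z_before B σ τ t (fun r' h' => hmin' r' (h'.trans_lt hlt)),
        z_before B σ τ s (fun r' h' => hmin' r' ((h'.trans hst.le).trans_lt hlt)), sub_self]
  · push Not at hne
    exfalso
    apply h
    rw [map_sub, z_before B σ τ t (fun r' _ => hne r'), z_before B σ τ s (fun r' _ => hne r'),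
      sub_self]

lemma norm_le_of_ev (x : TX B) {C : ℝ} (hC : 0 ≤ C) (h : ∀ τ : B, |ev B τ x| ≤ C) : ‖x‖ ≤ C := by
  change ‖x.1‖ ≤ C
  exact lp.norm_le_of_forall_le hC h

lemma ev_le_norm (x : TX B) (τ : B) : |ev B τ x| ≤ ‖x‖ := by
  change ‖(x.1 : B → ℝ) τ‖ ≤ ‖x.1‖
  exact lp.norm_apply_le_norm (by simp) x.1 τ

/-- sums of signed differences over consecutive pairs have norm at most `2` -/
lemma norm_sum_le (σ : B) (n : ℕ) (a b : ℕ → W) (hab : ∀ k, a k < b k)
    (hba : ∀ k l, k < l → b k < a l) (ε : ℕ → ℝ) (hε : ∀ k, |ε k| ≤ 1) :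
    ‖∑ k ∈ Finset.range n, ε k • (z B σ (b k) - z B σ (a k))‖ ≤ 2 := by
  apply norm_le_of_ev B _ (by norm_num)
  intro τ
  rw [map_sum]
  by_cases hex : ∃ k ∈ Finset.range n, ev B τ (z B σ (b k) - z B σ (a k)) ≠ 0
  · obtain ⟨k, hk, hne⟩ := hex
    rw [Finset.sum_eq_single k]
    · rw [map_smul, smul_eq_mul, abs_mul, map_sub]
      calc |ε k| * |ev B τ (z B σ (b k)) - ev B τ (z B σ (a k))|
          ≤ 1 * (|ev B τ (z B σ (b k))| + |ev B τ (z B σ (a k))|) := by
            apply mul_le_mul (hε k) (abs_sub _ _) (abs_nonneg _) zero_le_one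
        _ ≤ 1 * (1 + 1) := by
            gcongr
            · exact abs_z_le B σ τ _
            · exact abs_z_le B σ τ _
        _ = 2 := by norm_num
    · intro l _ hlk
      rw [map_smul]
      by_contra h2
      have h3 : ev B τ (z B σ (b l) - z B σ (a l)) ≠ 0 := by
        intro h4; apply h2; rw [h4, smul_zero]
      obtain ⟨r, hr1, hr2, hr3, hr4⟩ := z_sub B σ τ (hab k) hne
      obtain ⟨r', hr1', hr2', hr3', hr4'⟩ := z_sub B σ τ (hab l) h3
      have hrr : r = r' := by
        rcases lt_trichotomy r r' with h | h | h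
        · exact absurd (hr4' r h) hr3
        · exact h
        · exact absurd (hr4 r' h) hr3'
      subst hrr
      rcases lt_or_gt_of_ne hlk with h | h
      · exact absurd (hr2'.trans_lt (hba l k h)) (not_lt.mpr hr1)
      · exact absurd (hr2.trans_lt (hba k l h)) (not_lt.mpr hr1')
    · intro h; exact absurd hk h
  · push Not at hex
    rw [Finset.sum_eq_zero (fun k hk => by rw [map_smul, hex k hk, smul_zero])]
    simp

/-- every functional is eventually constant along the signed vectors of a branch -/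
lemma eventually_const (σ : B) (g : TX B →L[ℝ] ℝ) : ∃ c : ℝ, ∃ t₀ : W, ∀ t, t₀ ≤ t →
    g (z B σ t) = c := by
  classical
  have key : ∀ ε : ℝ, 0 < ε → ∃ t₀ : W, ∀ s t, t₀ ≤ s → s < t → |g (z B σ t) - g (z B σ s)| < ε := by
    intro ε hε
    by_contra hcon
    push Not at hcon
    choose A hA using hcon
    choose C hC using hA
    -- `A t₀ < C t₀` is a pair above `t₀` with a jump of size `ε`
    have hsucc : ∀ t : W, ∃ t' : W, t < t' := fun t => by
      obtain ⟨t', ht'⟩ := exists_gt_of_countable (countable_singleton t)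
      exact ⟨t', ht' t rfl⟩
    choose N hN using hsucc
    let st : ℕ → W := fun n => Nat.rec (Classical.arbitrary W) (fun _ t => N (C t)) n
    let a : ℕ → W := fun n => A (st n)
    let b : ℕ → W := fun n => C (st n)
    have hst : ∀ n, st (n + 1) = N (C (st n)) := fun n => rfl
    have hab : ∀ k, a k < b k := fun k => (hC (st k)).2.1
    have hsa : ∀ k, st k ≤ a k := fun k => (hC (st k)).1
    have hbs : ∀ k, b k < st (k + 1) := fun k => hN _
    have hmono : Monotone st := monotone_nat_of_le_succ fun k =>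
      (hsa k).trans ((hab k).le.trans (hbs k).le)
    have hba : ∀ k l, k < l → b k < a l := fun k l hkl =>
      (hbs k).trans_le ((hmono (Nat.succ_le_of_lt hkl)).trans (hsa l))
    have hjump : ∀ k, ε ≤ |g (z B σ (b k)) - g (z B σ (a k))| := fun k => (hC (st k)).2.2
    obtain ⟨n, hn⟩ := exists_nat_gt (‖g‖ * 2 / ε)
    have hn' : ‖g‖ * 2 < n * ε := by
      rwa [div_lt_iff₀ hε] at hn
    let sg : ℕ → ℝ := fun k => if 0 ≤ g (z B σ (b k)) - g (z B σ (a k)) then 1 else -1
    have hsg : ∀ k, |sg k| ≤ 1 := by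
      intro k; simp only [sg]; split_ifs <;> simp
    have hsg2 : ∀ k, sg k * (g (z B σ (b k)) - g (z B σ (a k))) =
        |g (z B σ (b k)) - g (z B σ (a k))| := by
      intro k
      simp only [sg]
      split_ifs with h
      · rw [one_mul, abs_of_nonneg h]
      · rw [neg_one_mul, abs_of_neg (not_le.mp h)]
    have h1 := g.le_opNorm (∑ k ∈ Finset.range n, sg k • (z B σ (b k) - z B σ (a k)))
    have h2 := norm_sum_le B σ n a b hab hba sg hsg
    have h3 : g (∑ k ∈ Finset.range n, sg k • (z B σ (b k) - z B σ (a k))) =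
        ∑ k ∈ Finset.range n, |g (z B σ (b k)) - g (z B σ (a k))| := by
      rw [map_sum]
      apply Finset.sum_congr rfl
      intro k _
      rw [map_smul, map_sub, smul_eq_mul, hsg2]
    have h4 : (n : ℝ) * ε ≤ ∑ k ∈ Finset.range n, |g (z B σ (b k)) - g (z B σ (a k))| := by
      calc (n : ℝ) * ε = ∑ _k ∈ Finset.range n, ε := by simp
        _ ≤ _ := Finset.sum_le_sum fun k _ => hjump k
    rw [h3, Real.norm_eq_abs] at h1
    have h5 := le_abs_self (∑ k ∈ Finset.range n, |g (z B σ (b k)) - g (z B σ (a k))|)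
    have h6 : ‖g‖ * ‖∑ k ∈ Finset.range n, sg k • (z B σ (b k) - z B σ (a k))‖ ≤ ‖g‖ * 2 := by
      gcongr
    linarith
  choose T hT using fun n : ℕ => key (1 / (n + 1)) Nat.one_div_pos_of_nat
  obtain ⟨t₀, ht₀⟩ := exists_gt_of_countable (countable_range T)
  refine ⟨g (z B σ t₀), t₀, fun t ht => ?_⟩
  rcases ht.lt_or_eq with h | h
  · by_contra hne
    have hpos : 0 < |g (z B σ t) - g (z B σ t₀)| := abs_pos.mpr (sub_ne_zero.mpr hne)
    obtain ⟨n, hn⟩ := exists_nat_one_div_lt hpos
    exact absurd (hT n t₀ t (ht₀ _ ⟨n, rfl⟩).le h) (not_lt.mpr hn.le)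
  · rw [h]

/-- The countable-cocountable sigma-algebra. -/
@[reducible] def ccMS (Ω : Type) : MeasurableSpace Ω where
  MeasurableSet' s := s.Countable ∨ sᶜ.Countable
  measurableSet_empty := Or.inl countable_empty
  measurableSet_compl s h := by
    rcases h with h | h
    · right; rwa [compl_compl]
    · left; exact h
  measurableSet_iUnion f hf := by
    by_cases h : ∀ i, (f i).Countable
    · left; exact countable_iUnion h
    · right
      push Not at h
      obtain ⟨i, hi⟩ := h
      have h2 := (hf i).resolve_left hi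
      exact h2.mono (compl_subset_compl.mpr (subset_iUnion f i))

open Classical in
/-- The measure which is 0 on countable sets and 1 on cocountable sets. -/
noncomputable def ccMeasure (Ω : Type) [Uncountable Ω] : @Measure Ω (ccMS Ω) :=
  letI := ccMS Ω
  Measure.ofMeasurable (fun s _ => if s.Countable then 0 else 1)
    (by simp)
    (by
      intro f hf hd
      by_cases h : ∀ i, (f i).Countable
      · have : (⋃ i, f i).Countable := countable_iUnion h
        simp only [this, if_true]
        simp [h]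
      · push Not at h
        obtain ⟨i, hi⟩ := h
        have h2 : (f i)ᶜ.Countable := (hf i).resolve_left hi
        have h3 : ¬ (⋃ i, f i).Countable := fun hc => hi (hc.mono (subset_iUnion f i))
        rw [if_neg h3]
        rw [tsum_eq_single i]
        · rw [if_neg hi]
        · intro j hj
          rw [if_pos]
          apply h2.mono
          intro x hx hxi
          exact (Set.disjoint_left.mp (hd hj) hx) hxi)

lemma ccMeasure_apply (Ω : Type) [Uncountable Ω] (s : Set Ω)
    (hs : @MeasurableSet Ω (ccMS Ω) s) [Decidable s.Countable] :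
    ccMeasure Ω s = if s.Countable then 0 else 1 := by
  let _ := ccMS Ω
  unfold ccMeasure
  rw [Measure.ofMeasurable_apply s hs]
  congr

lemma ccMeasure_prob (Ω : Type) [Uncountable Ω] :
    @IsProbabilityMeasure Ω (ccMS Ω) (ccMeasure Ω) := by
  letI := ccMS Ω
  classical
  constructor
  rw [ccMeasure_apply Ω Set.univ MeasurableSet.univ]
  rw [if_neg]
  exact Set.not_countable_univ

lemma ccMeasure_complete (Ω : Type) [Uncountable Ω] :
    @Measure.IsComplete Ω (ccMS Ω) (ccMeasure Ω) := by
  letI := ccMS Ω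
  classical
  constructor
  intro s hs
  obtain ⟨t, h1, h2, h3⟩ := exists_measurable_superset_of_null hs
  rw [ccMeasure_apply Ω t h2] at h3
  left
  by_cases h : t.Countable
  · exact h.mono h1
  · rw [if_neg h] at h3
    exact absurd h3 one_ne_zero

/-- functions that are constant from some point on are measurable -/
lemma measurable_of_eventually {f : W → ℝ} {c : ℝ} {t₀ : W} (h : ∀ t, t₀ ≤ t → f t = c) :
    @Measurable W ℝ (ccMS W) _ f := by
  letI := ccMS W
  intro s _
  change (f ⁻¹' s).Countable ∨ (f ⁻¹' s)ᶜ.Countable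
  by_cases hc : c ∈ s
  · right
    apply (countable_Iio t₀).mono
    intro t ht
    by_contra hlt
    apply ht
    change f t ∈ s
    rw [h t (not_lt.mp hlt)]
    exact hc
  · left
    apply (countable_Iio t₀).mono
    intro t ht
    by_contra hlt
    apply hc
    rw [← h t (not_lt.mp hlt)]
    exact ht

end Pool.Agent.R295.SC
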