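import Mathlib

/-!
# A Banach space of branches of a tree, helper295

`W` is the initial ordinal of cardinality `ℵ₁`, `B` a set of functions `W → Bool` (branches of a
tree).  `TX B` is the closed linear span in `ℓ^∞(B)` of the functions `u t σ` (value `±1` at the
branches that agree with `σ` below `t`, the sign is the next bit, and `0` elsewhere).
-/

set_option autoImplicit false

open Cardinal Set MeasureTheory
open scoped ENNReal

namespace Pool.Agent.R295.SC

/-- the initial ordinal of cardinality `ℵ₁`, as a well ordered type -/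
abbrev W : Type := (Cardinal.aleph 1).ord.ToType

lemma mk_W : #W = ℵ₁ := by
  rw [Cardinal.mk_toType, Cardinal.card_ord]

instance : Uncountable W := by
  rw [← Cardinal.aleph0_lt_mk_iff, mk_W]
  exact Cardinal.aleph0_lt_aleph_one

lemma countable_Iio (t : W) : (Iio t).Countable := by
  have h : #(Iio t) < ℵ₁ := Cardinal.mk_Iio_toType_ord_lt t
  rw [← Cardinal.le_aleph0_iff_set_countable]
  generalize #(Iio t) = c at h
  rw [← Cardinal.succ_aleph0] at h
  exact Order.lt_succ_iff.mp h

lemma countable_Iic (t : W) : (Iic t).Countable := by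
  rw [← Set.Iio_insert]
  exact (countable_Iio t).insert t

/-- countable sets are strictly bounded -/
lemma exists_gt_of_countable {S : Set W} (hS : S.Countable) : ∃ t : W, ∀ s ∈ S, s < t := by
  have h : (⋃ s ∈ S, Iic s).Countable := hS.biUnion fun s _ => countable_Iic s
  obtain ⟨t, ht⟩ := (Set.ne_univ_iff_exists_notMem _).mp
    (fun h' : (⋃ s ∈ S, Iic s) = Set.univ => Set.not_countable_univ (h' ▸ h))
  refine ⟨t, fun s hs => ?_⟩
  by_contra hlt
  exact ht (by simp only [mem_iUnion]; exact ⟨s, hs, not_lt.mp hlt⟩)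

lemma not_countable_Ici (t : W) : ¬ (Ici t).Countable := by
  intro h
  have h2 : (Iio t ∪ Ici t).Countable := (countable_Iio t).union h
  rw [Iio_union_Ici] at h2
  exact Set.not_countable_univ h2

variable (B : Set (W → Bool))

/-- two functions agree below `t` -/
def Agree (t : W) (σ τ : W → Bool) : Prop := ∀ r < t, τ r = σ r

/-- the sign of a bit -/
def sgn (b : Bool) : ℝ := if b then -1 else 1

lemma abs_sgn (b : Bool) : |sgn b| = 1 := by cases b <;> simp [sgn]

lemma sgn_inj {a b : Bool} (h : sgn a = sgn b) : a = b := by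
  cases a <;> cases b <;> simp [sgn] at h ⊢ <;> norm_num at h

open Classical in
/-- the function on the branches attached to a node -/
noncomputable def uFun (t : W) (σ : W → Bool) (τ : B) : ℝ :=
  if Agree t σ τ then sgn (τ.1 t) else 0

lemma abs_uFun_le (t : W) (σ : W → Bool) (τ : B) : |uFun B t σ τ| ≤ 1 := by
  unfold uFun
  split_ifs
  · exact (abs_sgn _).le
  · simp

/-- the vector of `ℓ^∞(B)` attached to a node -/
noncomputable def u (t : W) (σ : W → Bool) : lp (fun _ : B => ℝ) ∞ :=
  ⟨uFun B t σ, memℓp_infty ⟨1, by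
    rintro _ ⟨τ, rfl⟩
    exact abs_uFun_le B t σ τ⟩⟩

lemma u_apply (t : W) (σ : W → Bool) (τ : B) : (u B t σ : B → ℝ) τ = uFun B t σ τ := rfl

lemma u_congr {t : W} {σ σ' : W → Bool} (h : Agree t σ σ') : u B t σ = u B t σ' := by
  apply Subtype.ext
  funext τ
  change uFun B t σ τ = uFun B t σ' τ
  unfold uFun
  have : Agree t σ τ ↔ Agree t σ' τ := by
    constructor
    · intro h1 r hr; rw [h1 r hr, h r hr]
    · intro h1 r hr; rw [h1 r hr, h r hr]
  by_cases h2 : Agree t σ τ
  · rw [if_pos h2, if_pos (this.mp h2)]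
  · rw [if_neg h2, if_neg (fun h3 => h2 (this.mpr h3))]

lemma u_self (t : W) (σ : B) : uFun B t σ.1 σ = sgn (σ.1 t) := by
  unfold uFun
  rw [if_pos]
  intro r _; rfl

/-- the Banach space of the tree -/
noncomputable def TX : Submodule ℝ (lp (fun _ : B => ℝ) ∞) :=
  (Submodule.span ℝ (range fun p : W × B => u B p.1 p.2.1)).topologicalClosure

noncomputable instance : CompleteSpace (TX B) :=
  (Submodule.isClosed_topologicalClosure _).completeSpace_coe

/-- the vectors of the nodes as members of `TX B` -/
noncomputable def v (t : W) (σ : B) : TX B :=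
  ⟨u B t σ.1, Submodule.le_topologicalClosure _ (Submodule.subset_span ⟨(t, σ), rfl⟩)⟩

lemma v_congr {t : W} {σ σ' : B} (h : Agree t σ.1 σ'.1) : v B t σ = v B t σ' :=
  Subtype.ext (u_congr B h)

/-- evaluation at a branch -/
noncomputable def ev (τ : B) : TX B →L[ℝ] ℝ :=
  LinearMap.mkContinuous
    { toFun := fun x => (x.1 : B → ℝ) τ
      map_add' := fun x y => by simp
      map_smul' := fun c x => by simp } 1 (fun x => by
        simp only [LinearMap.coe_mk, AddHom.coe_mk, one_mul]
        exact lp.norm_apply_le_norm (by simp) x.1 τ)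

lemma ev_v (τ : B) (t : W) (σ : B) : ev B τ (v B t σ) = uFun B t σ.1 τ := rfl

end Pool.Agent.R295.SC
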